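import Mathlib
import Pool.Agent.W68.HerShift

/-!
# Hereditary exact prime patterns in prescribed residue classes

Every infinite set `A` of integers contains an infinite set `B` such that, for every residue class `a`
modulo `M` (prime to `M`), all subsets of `B` which avoid a finite set (depending on the class) are exact
prime patterns all of whose primes are in the class `a` modulo `M`.
-/

set_option autoImplicit false

namespace Pool.Agent.U33.BC

open Filter

/-- a sequence in `A` which converges in the profinite integers -/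
theorem exists_conv (A : Set ℤ) (hA : A.Infinite) :
    ∃ φ : ℕ → ℤ, Function.Injective φ ∧ (∀ i, φ i ∈ A) ∧
      ∀ M : ℕ, 1 ≤ M → ∃ c : ℤ, ∀ i, M ≤ i → φ i ≡ c [ZMOD M] := by
  classical
  set u : ℕ → ℤ := fun i => (Set.Infinite.natEmbedding A hA i : ℤ) with hu
  have hui : Function.Injective u := fun i j h => by
    have := Subtype.ext h
    exact (Set.Infinite.natEmbedding A hA).injective this
  have hcls : ∀ M : ℕ, 1 ≤ M → ∃ c : ℤ, ∀ᶠ k in (hyperfilter ℕ : Filter ℕ), u k ≡ c [ZMOD M] := by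
    intro M hM
    have : NeZero M := ⟨by omega⟩
    have h1 : ∃ z : ZMod M, ∀ᶠ k in (hyperfilter ℕ : Filter ℕ), (u k : ZMod M) = z := by
      by_contra hcon
      push Not at hcon
      have h2 : ∀ z : ZMod M, ∀ᶠ k in (hyperfilter ℕ : Filter ℕ), (u k : ZMod M) ≠ z := hcon
      have h3 : ∀ᶠ k in (hyperfilter ℕ : Filter ℕ), ∀ z : ZMod M, (u k : ZMod M) ≠ z :=
        eventually_all.2 h2
      obtain ⟨k, hk⟩ := h3.exists
      exact hk _ rfl
    obtain ⟨z, hz⟩ := h1
    refine ⟨(z.val : ℤ), hz.mono fun k hk => ?_⟩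
    rw [← ZMod.intCast_eq_intCast_iff, hk]
    simp
  choose c hc using hcls
  have hfreq : ∀ i : ℕ, ∃ᶠ k in atTop, ∀ M : ℕ, ∀ hM : 1 ≤ M, M ≤ i → u k ≡ c M hM [ZMOD M] := by
    intro i
    have h1 : ∀ᶠ k in (hyperfilter ℕ : Filter ℕ), ∀ M ∈ Finset.range (i + 1), ∀ hM : 1 ≤ M,
        u k ≡ c M hM [ZMOD M] := by
      rw [Filter.eventually_all_finset]
      intro M _
      by_cases hM : 1 ≤ M
      · exact (hc M hM).mono fun k hk _ => hk
      · exact Eventually.of_forall fun k h => absurd h hM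
    have h2 : ∃ᶠ k in (hyperfilter ℕ : Filter ℕ), ∀ M ∈ Finset.range (i + 1), ∀ hM : 1 ≤ M,
        u k ≡ c M hM [ZMOD M] := h1.frequently
    have h3 : (hyperfilter ℕ : Filter ℕ) ≤ atTop := by
      rw [← Nat.cofinite_eq_atTop]
      exact hyperfilter_le_cofinite
    exact (h2.filter_mono h3).mono fun k hk M hM hMi =>
      hk M (Finset.mem_range.2 (by omega)) hM
  obtain ⟨ψ, hψ, hψ2⟩ := extraction_forall_of_frequently hfreq
  refine ⟨fun i => u (ψ i), hui.comp hψ.injective, fun i => (Set.Infinite.natEmbedding A hA _).2,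
    fun M hM => ⟨c M hM, fun i hi => hψ2 i M hM hi⟩⟩

/-- **Hereditary exact patterns in every residue class.** -/
theorem hered_classes (A : Set ℤ) (hA : A.Infinite) :
    ∃ B ⊆ A, B.Infinite ∧ ∀ (M a : ℕ), 1 ≤ M → Nat.Coprime a M → ∃ F : Set ℤ, F.Finite ∧
      ∀ S ⊆ B \ F, ∀ R : ℕ, {n : ℕ |
        (∀ y : ℤ, |y| ≤ R → (Nat.Prime ((n : ℤ) + y).toNat ↔ y ∈ S)) ∧
        ∀ y ∈ S, (n : ℤ) + y ≡ a [ZMOD M]}.Infinite := by
  classical
  obtain ⟨φ, hφ, hφA, hconv⟩ := exists_conv A hA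
  choose c hc using hconv
  obtain ⟨b, hb, h⟩ := Pool.Agent.W68.Her.main_shifts (fun _ => φ) (fun _ => hφ)
    (fun j => (Nat.unpair j).1 + 1) (fun j => by omega)
    (fun j => ((Nat.unpair j).2 : ℤ) - c ((Nat.unpair j).1 + 1) (by omega))
  refine ⟨Set.range (fun i => φ (b i)), ?_, ?_, ?_⟩
  · rintro _ ⟨i, rfl⟩
    exact hφA _
  · exact Set.infinite_range_of_injective (hφ.comp hb.injective)
  · intro M a hM hcop
    obtain ⟨M', rfl⟩ : ∃ M', M = M' + 1 := ⟨M - 1, by omega⟩
    set j := Nat.pair M' a with hj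
    have hj1 : (Nat.unpair j).1 = M' := by rw [hj, Nat.unpair_pair]
    have hj2 : (Nat.unpair j).2 = a := by rw [hj, Nat.unpair_pair]
    refine ⟨(fun i => φ (b i)) '' (Set.Iio (max j (M' + 1))), (Set.finite_Iio _).image _,
      fun S hS R => ?_⟩
    have hcls : ∀ i, max j (M' + 1) ≤ i → φ (b i) ≡ c (M' + 1) hM [ZMOD ((M' + 1 : ℕ) : ℤ)] := by
      intro i hi
      exact hc (M' + 1) hM (b i) (((le_max_right _ _).trans hi).trans (hb.id_le i))
    have hr : (((Nat.unpair j).2 : ℤ) - c ((Nat.unpair j).1 + 1) (by omega)) =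
        (a : ℤ) - c (M' + 1) hM := by
      have hgen : ∀ (x y : ℕ) (hx : x = M') (hy : y = a),
          ((y : ℤ) - c (x + 1) (by omega)) = (a : ℤ) - c (M' + 1) hM := by
        rintro x y rfl rfl
        rfl
      exact hgen _ _ hj1 hj2
    have hI : ∀ i ∈ {i | φ (b i) ∈ S}, max j (M' + 1) ≤ i := by
      intro i hi
      by_contra hcon
      exact (hS hi).2 ⟨i, not_le.1 hcon, rfl⟩
    have h1 := h j {i | φ (b i) ∈ S} (by
      intro i hi
      refine ⟨(le_max_left _ _).trans (hI i hi), ?_⟩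
      rw [hr, hj1]
      have h2 : (a : ℤ) - c (M' + 1) hM + φ (b i) ≡ a [ZMOD ((M' + 1 : ℕ) : ℤ)] := by
        have h3 := (Int.ModEq.refl ((a : ℤ) - c (M' + 1) hM)).add (hcls i (hI i hi))
        simpa using h3
      have h4 : IsCoprime (a : ℤ) ((M' + 1 : ℕ) : ℤ) := by
        exact_mod_cast Nat.isCoprime_iff_coprime.2 hcop
      obtain ⟨k, hk⟩ := Int.modEq_iff_dvd.1 h2.symm
      have h5 : (a : ℤ) - c (M' + 1) hM + φ (b i) = a + ((M' + 1 : ℕ) : ℤ) * k := by
        linarith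
      rw [h5]
      exact IsCoprime.add_mul_left_left h4 k) R
    refine h1.mono ?_
    rintro n ⟨hn1, hn2⟩
    rw [hr, hj1] at hn1
    refine ⟨fun y hy => ?_, fun y hy => ?_⟩
    · rw [hn2 y hy]
      constructor
      · rintro ⟨i, hi, rfl⟩
        exact hi
      · intro hyS
        obtain ⟨i, rfl⟩ := (hS hyS).1
        exact ⟨i, hyS, rfl⟩
    · obtain ⟨i, rfl⟩ := (hS hy).1
      have h3 := hn1.add (hcls i (hI i hy))
      simpa using h3

end Pool.Agent.U33.BC
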